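import Mathlib
import Pool.Agent.Q104.SpecC

/-!
# The magneto-spectral height of a suspension can be smaller than the height plus one
-/

set_option autoImplicit false

namespace Pool.Agent.Results.MP_efe8c5_co.Suspension

open Matrix Finset ComplexConjugate

section defs

variable {V : Type} [Fintype V] [DecidableEq V] (G : SimpleGraph V) [DecidableRel G.Adj]

/-- a magnetic potential: unit complex numbers on ordered adjacent pairs, inverse to each other on
the two orders of an edge (the values on non-adjacent pairs play no role) -/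
structure IsPotential (σ : V → V → ℂ) : Prop where
  norm_one : ∀ x y, G.Adj x y → ‖σ x y‖ = 1
  inv : ∀ x y, G.Adj x y → σ y x = (σ x y)⁻¹

/-- the magnetic Laplacian -/
noncomputable def lap (σ : V → V → ℂ) (f : V → ℂ) (x : V) : ℂ :=
  ∑ y ∈ G.neighborFinset x, (f x - σ x y * f y)

/-- the real eigenvalues of the magnetic Laplacian (which is Hermitian) -/
def eigs (σ : V → V → ℂ) : Set ℝ := {t | ∃ f : V → ℂ, f ≠ 0 ∧ ∀ x, lap G σ f x = t * f x}

/-- the smallest eigenvalue -/
noncomputable def lam1 (σ : V → V → ℂ) : ℝ := sInf (eigs G σ)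

/-- the magneto-spectral height -/
noncomputable def nu : ℝ := sSup {t | ∃ σ : V → V → ℂ, IsPotential G σ ∧ lam1 G σ = t}

/-- the suspension: one new vertex `none` adjacent to every vertex of `G` -/
def susp : SimpleGraph (Option V) where
  Adj x y := match x, y with
    | none, none => False
    | none, some _ => True
    | some _, none => True
    | some a, some b => G.Adj a b
  symm := ⟨by
    intro x y
    rcases x with _ | x <;> rcases y with _ | y <;> simp [G.adj_comm]⟩
  loopless := ⟨by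
    intro x
    rcases x with _ | x <;> simp⟩

instance : DecidableRel (susp G).Adj := by
  intro x y
  rcases x with _ | x <;> rcases y with _ | y <;> unfold susp <;> simp only <;> infer_instance

end defs

section general

variable {V : Type} [Fintype V] [DecidableEq V] {G : SimpleGraph V} [DecidableRel G.Adj]

/-- the matrix of the magnetic Laplacian -/
noncomputable def mat (G : SimpleGraph V) [DecidableRel G.Adj] (σ : V → V → ℂ) : Matrix V V ℂ :=
  Matrix.of fun x y => (if x = y then (G.degree x : ℂ) else 0) - (if G.Adj x y then σ x y else 0)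

lemma mat_mulVec (σ : V → V → ℂ) (f : V → ℂ) : mat G σ *ᵥ f = lap G σ f := by
  ext x
  simp only [mat, Matrix.mulVec, dotProduct, Matrix.of_apply, lap, sub_mul,
    Finset.sum_sub_distrib, ite_mul, zero_mul, Finset.sum_ite_eq, Finset.mem_univ, if_true,
    Finset.sum_const, nsmul_eq_mul, SimpleGraph.card_neighborFinset_eq_degree]
  congr 1
  rw [← Finset.sum_filter]
  refine Finset.sum_congr ?_ fun _ _ => rfl
  ext y
  simp

lemma conj_eq {σ : V → V → ℂ} (hσ : IsPotential G σ) {x y : V} (h : G.Adj x y) :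
    σ y x = conj (σ x y) := by
  rw [hσ.inv x y h, Complex.inv_def, Complex.normSq_eq_norm_sq, hσ.norm_one x y h]
  simp

lemma mat_herm {σ : V → V → ℂ} (hσ : IsPotential G σ) : (mat G σ).IsHermitian := by
  ext x y
  simp only [mat, Matrix.conjTranspose_apply, Matrix.of_apply, star_sub]
  congr 1
  · by_cases h : x = y
    · subst h; simp
    · simp [h, Ne.symm h]
  · by_cases h : G.Adj x y
    · rw [if_pos h, if_pos h.symm, conj_eq hσ h]
      simp
    · rw [if_neg h, if_neg (fun h' => h h'.symm)]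
      simp

lemma eigs_eq {σ : V → V → ℂ} (hσ : IsPotential G σ) :
    eigs G σ = Set.range (mat_herm hσ).eigenvalues := by
  ext t
  rw [Set.mem_range, ← Q104.SpecC.eigen_iff (mat_herm hσ)]
  simp only [eigs, Set.mem_ofPred_eq, mat_mulVec]
  constructor
  · rintro ⟨f, hf, h⟩
    exact ⟨f, hf, funext fun x => by rw [h x]; rfl⟩
  · rintro ⟨f, hf, h⟩
    exact ⟨f, hf, fun x => by rw [h]; rfl⟩

lemma eigs_nonempty [Nonempty V] {σ : V → V → ℂ} (hσ : IsPotential G σ) : (eigs G σ).Nonempty := by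
  rw [eigs_eq hσ]
  exact Set.range_nonempty _

/-- the energy as a sum over ordered pairs -/
noncomputable def en (G : SimpleGraph V) [DecidableRel G.Adj] (σ : V → V → ℂ) (f : V → ℂ) : ℝ :=
  ∑ x, ∑ y, if G.Adj x y then ‖f x - σ x y * f y‖ ^ 2 else 0

lemma two_quad {σ : V → V → ℂ} (hσ : IsPotential G σ) (f : V → ℂ) :
    2 * (star f ⬝ᵥ (mat G σ *ᵥ f)).re = en G σ f := by
  have h1 : star f ⬝ᵥ (mat G σ *ᵥ f)
      = ∑ x, ∑ y, if G.Adj x y then conj (f x) * (f x - σ x y * f y) else 0 := by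
    rw [mat_mulVec]
    simp only [dotProduct, lap, Pi.star_apply, Finset.mul_sum]
    refine Finset.sum_congr rfl fun x _ => ?_
    rw [← Finset.sum_filter]
    refine Finset.sum_congr ?_ fun _ _ => rfl
    ext y
    simp
  have h2 : star f ⬝ᵥ (mat G σ *ᵥ f)
      = ∑ x, ∑ y, if G.Adj x y then conj (f y) * (f y - σ y x * f x) else 0 := by
    rw [h1, Finset.sum_comm]
    refine Finset.sum_congr rfl fun x _ => Finset.sum_congr rfl fun y _ => ?_
    simp only [G.adj_comm]
  have h3 : 2 * (star f ⬝ᵥ (mat G σ *ᵥ f)).re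
      = (∑ x, ∑ y, if G.Adj x y then conj (f x) * (f x - σ x y * f y) +
        conj (f y) * (f y - σ y x * f x) else 0).re := by
    rw [two_mul]
    nth_rewrite 1 [h1]
    rw [h2, ← Complex.add_re, ← Finset.sum_add_distrib]
    congr 1
    refine Finset.sum_congr rfl fun x _ => ?_
    rw [← Finset.sum_add_distrib]
    refine Finset.sum_congr rfl fun y _ => ?_
    split_ifs <;> simp
  rw [h3, en, Complex.re_sum]
  refine Finset.sum_congr rfl fun x _ => ?_
  rw [Complex.re_sum]
  refine Finset.sum_congr rfl fun y _ => ?_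
  split_ifs with h
  · have h4 : conj (f x) * (f x - σ x y * f y) + conj (f y) * (f y - σ y x * f x)
        = ((‖f x - σ x y * f y‖ ^ 2 : ℝ) : ℂ) := by
      push_cast
      rw [← Complex.conj_mul', map_sub, map_mul, conj_eq hσ h]
      have h5 : conj (σ x y) * σ x y = 1 := by
        rw [Complex.conj_mul', hσ.norm_one x y h]; simp
      linear_combination (-(conj (f y) * f y)) * h5
    rw [h4, Complex.ofReal_re]
  · rfl

/-- the Rayleigh bound for the smallest eigenvalue -/
lemma lam1_le {σ : V → V → ℂ} (hσ : IsPotential G σ) (f : V → ℂ) :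
    2 * (lam1 G σ * ∑ x, ‖f x‖ ^ 2) ≤ en G σ f := by
  rw [← two_quad hσ]
  have h1 : ∀ j, lam1 G σ ≤ (mat_herm hσ).eigenvalues j := by
    intro j
    rw [lam1, eigs_eq hσ]
    exact csInf_le (Set.finite_range _).bddBelow ⟨j, rfl⟩
  have := Q104.SpecC.le_quad (mat_herm hσ) h1 f
  linarith

end general

/-! ### the example -/

/-- adjacency: the complete graph on `1, 2, 3, 4` and the pendant edge `01` -/
def a (i j : Fin 5) : Bool := (i != j) && ((1 ≤ i.val && 1 ≤ j.val) || (i.val ≤ 1 && j.val ≤ 1))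

/-- the complete graph on four vertices with a pendant edge -/
def K : SimpleGraph (Fin 5) where
  Adj i j := a i j = true
  symm := ⟨by decide⟩
  loopless := ⟨by decide⟩

instance : DecidableRel K.Adj := fun i j => inferInstanceAs (Decidable (a i j = true))

lemma K_adj (i j : Fin 5) : K.Adj i j ↔ a i j = true := Iff.rfl

lemma potC (G : SimpleGraph (Fin 5)) : IsPotential G (fun _ _ => -1) :=
  ⟨fun _ _ _ => by simp, fun _ _ _ => by norm_num⟩

/-- every eigenvalue of the signless Laplacian of `K` is at least `0.627` -/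
lemma low_eig (t : ℝ) (ht : t ∈ eigs K (fun _ _ => -1)) : 627 / 1000 ≤ t := by
  obtain ⟨f, hf, h⟩ := ht
  by_contra hcon
  push Not at hcon
  have hN : ∀ x, lap K (fun _ _ => -1) f x = ∑ y, if a x y = true then f x + f y else 0 := by
    intro x
    rw [lap, ← Finset.sum_filter]
    refine Finset.sum_congr ?_ fun y _ => by ring
    ext y
    simp [K_adj]
  have e0 := h 0
  have e1 := h 1
  have e2 := h 2
  have e3 := h 3
  have e4 := h 4
  rw [hN] at e0 e1 e2 e3 e4
  simp only [Fin.sum_univ_five, a] at e0 e1 e2 e3 e4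
  simp at e0 e1 e2 e3 e4
  set T : ℂ := (t : ℂ) with hT
  -- eliminate
  have g1 : f 1 = (T - 1) * f 0 := by linear_combination e0
  have g2 : (5 - T) * (f 2 + f 3 + f 4) = -3 * f 1 := by linear_combination e2 + e3 + e4
  have g3 : (T - 3) * (T ^ 2 - 7 * T + 4) * f 0 = 0 := by
    linear_combination (5 - T) * e1 - g2 - (17 - 9 * T + T ^ 2) * g1
  have p1 : (t - 3) * (t ^ 2 - 7 * t + 4) ≠ 0 := by
    have h1 : t - 3 < 0 := by linarith
    have h2 : 0 < t ^ 2 - 7 * t + 4 := by nlinarith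
    exact (mul_neg_of_neg_of_pos h1 h2).ne
  have p2 : (T - 3) * (T ^ 2 - 7 * T + 4) ≠ 0 := by
    rw [hT]
    exact_mod_cast p1
  have f0 : f 0 = 0 := (mul_eq_zero.mp g3).resolve_left p2
  have f1 : f 1 = 0 := by rw [g1, f0, mul_zero]
  have p3 : (5 - T) ≠ 0 := by
    have : (5 - t) ≠ 0 := by linarith
    rw [hT]; exact_mod_cast this
  have p4 : (2 - T) ≠ 0 := by
    have : (2 - t) ≠ 0 := by linarith
    rw [hT]; exact_mod_cast this
  have fs : f 2 + f 3 + f 4 = 0 := by
    have : (5 - T) * (f 2 + f 3 + f 4) = 0 := by rw [g2, f1, mul_zero]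
    exact (mul_eq_zero.mp this).resolve_left p3
  have f2 : f 2 = 0 := by
    have : (2 - T) * f 2 = 0 := by linear_combination e2 - f1 - fs
    exact (mul_eq_zero.mp this).resolve_left p4
  have f3 : f 3 = 0 := by
    have : (2 - T) * f 3 = 0 := by linear_combination e3 - f1 - fs
    exact (mul_eq_zero.mp this).resolve_left p4
  have f4 : f 4 = 0 := by
    have : (2 - T) * f 4 = 0 := by linear_combination e4 - f1 - fs
    exact (mul_eq_zero.mp this).resolve_left p4
  apply hf
  ext x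
  fin_cases x
  · exact f0
  · exact f1
  · exact f2
  · exact f3
  · exact f4

lemma en_single {V : Type} [Fintype V] [DecidableEq V] (G : SimpleGraph V) [DecidableRel G.Adj]
    {σ : V → V → ℂ} (hσ : IsPotential G σ) (v : V) :
    lam1 G σ ≤ 2 * (Fintype.card V : ℝ) ^ 2 := by
  have h := lam1_le hσ (Pi.single v 1)
  have h1 : ∑ x, ‖(Pi.single v 1 : V → ℂ) x‖ ^ 2 = 1 := by
    rw [Finset.sum_eq_single v]
    · simp
    · intro b _ hb; simp [hb]
    · simp
  rw [h1, mul_one] at h
  have h2 : en G σ (Pi.single v 1) ≤ ∑ _x : V, ∑ _y : V, (4 : ℝ) := by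
    refine Finset.sum_le_sum fun x _ => Finset.sum_le_sum fun y _ => ?_
    have h0 : ∀ z, ‖(Pi.single v 1 : V → ℂ) z‖ ≤ 1 := by
      intro z
      by_cases hz : z = v
      · subst hz; simp
      · simp [hz]
    split_ifs with hxy
    · have h3 : ‖(Pi.single v 1 : V → ℂ) x - σ x y * (Pi.single v 1 : V → ℂ) y‖ ≤ 2 := by
        refine (norm_sub_le _ _).trans ?_
        rw [norm_mul, hσ.norm_one x y hxy]
        linarith [h0 x, h0 y]
      nlinarith [norm_nonneg ((Pi.single v 1 : V → ℂ) x - σ x y * (Pi.single v 1 : V → ℂ) y)]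
    · norm_num
  simp only [Finset.sum_const, Finset.card_univ, nsmul_eq_mul] at h2
  nlinarith

lemma nu_K : 627 / 1000 ≤ nu K := by
  have h1 : 627 / 1000 ≤ lam1 K (fun _ _ => -1) :=
    le_csInf (eigs_nonempty (potC K)) low_eig
  refine h1.trans (le_csSup ?_ ⟨_, potC K, rfl⟩)
  refine ⟨2 * (Fintype.card (Fin 5) : ℝ) ^ 2, ?_⟩
  rintro t ⟨σ, hσ, rfl⟩
  exact en_single K hσ 0

lemma T_symm {V : Type} [Fintype V] [DecidableEq V] {G : SimpleGraph V} [DecidableRel G.Adj]
    {σ : V → V → ℂ} (hσ : IsPotential G σ) {x y : V} (h : G.Adj x y) (f : V → ℂ) :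
    ‖f x - σ x y * f y‖ = ‖f y - σ y x * f x‖ := by
  have h0 : σ y x ≠ 0 := by
    intro h1
    have := hσ.norm_one y x h.symm
    rw [h1, norm_zero] at this
    exact zero_ne_one this
  have h1 : f x - σ x y * f y = -(σ y x)⁻¹ * (f y - σ y x * f x) := by
    rw [hσ.inv y x h.symm]
    field_simp
    ring
  rw [h1, norm_mul, norm_neg, norm_inv, hσ.norm_one y x h.symm]
  simp

/-- the squared bounds on the edges of `K` -/
def cst (x y : Fin 5) : ℚ :=
  if a x y then (if x = 0 ∨ y = 0 then 25 / 64 else if x = 1 ∨ y = 1 then 49 / 576 else 1 / 36)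
  else 0

lemma sum_cst : ∑ x, ∑ y, cst x y = 35 / 24 := by decide +kernel

/-- every magnetic potential on the suspension has smallest eigenvalue at most `1.6` -/
lemma susp_le (σ : Option (Fin 5) → Option (Fin 5) → ℂ) (hσ : IsPotential (susp K) σ) :
    lam1 (susp K) σ ≤ 8 / 5 := by
  have adjc : ∀ x : Fin 5, (susp K).Adj (some x) none := fun _ => trivial
  have adjK : ∀ x y : Fin 5, (susp K).Adj (some x) (some y) ↔ K.Adj x y := fun _ _ => Iff.rfl
  set s := σ (some 0) (some 1) with hs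
  have hs1 : ‖s‖ = 1 := hσ.norm_one _ _ ((adjK 0 1).mpr (by decide))
  have hs0 : s ≠ 0 := by intro h; rw [h, norm_zero] at hs1; exact zero_ne_one hs1
  have ht : ∀ i : Fin 5, K.Adj 1 i → ‖σ (some 1) (some i)‖ = 1 := fun i h =>
    hσ.norm_one _ _ ((adjK 1 i).mpr h)
  have ht0 : ∀ i : Fin 5, K.Adj 1 i → σ (some 1) (some i) ≠ 0 := by
    intro i hi h; have := ht i hi; rw [h, norm_zero] at this; exact zero_ne_one this
  set g : Fin 5 → ℂ := fun i => if i = 0 then 1 else if i = 1 then (3 / 8) * s⁻¹ else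
    (1 / 12) * s⁻¹ * (σ (some 1) (some i))⁻¹ with hg
  have g0 : g 0 = 1 := by simp [hg]
  have g1 : g 1 = (3 / 8) * s⁻¹ := by simp [hg]
  have gi : ∀ i : Fin 5, 2 ≤ i → g i = (1 / 12) * s⁻¹ * (σ (some 1) (some i))⁻¹ := by
    intro i hi
    have h0 : i ≠ 0 := by rintro rfl; exact absurd hi (by decide)
    have h1 : i ≠ 1 := by rintro rfl; exact absurd hi (by decide)
    simp [hg, h0, h1]
  have n0 : ‖g 0‖ = 1 := by rw [g0]; simp
  have n1 : ‖g 1‖ = 3 / 8 := by
    rw [g1, norm_mul, norm_inv, hs1]; norm_num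
  have adj1 : ∀ i : Fin 5, 2 ≤ i → K.Adj 1 i := by decide
  have ni : ∀ i : Fin 5, 2 ≤ i → ‖g i‖ = 1 / 12 := by
    intro i hi
    rw [gi i hi, norm_mul, norm_mul, norm_inv, norm_inv, hs1, ht i (adj1 i hi)]
    norm_num
  set τ : Fin 5 → ℂ := fun x => σ (some x) none with hτ
  have hτ1 : ∀ x, ‖τ x‖ = 1 := fun x => hσ.norm_one _ _ (adjc x)
  set Z : ℂ := ∑ x, conj (g x) * τ x with hZ
  have nZ : ∀ x, ‖conj (g x) * τ x‖ = ‖g x‖ := by
    intro x; rw [norm_mul, hτ1, RCLike.norm_conj, mul_one]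
  have hZn : 3 / 8 ≤ ‖Z‖ := by
    have e : conj (g 0) * τ 0 = Z - (conj (g 1) * τ 1 + conj (g 2) * τ 2 + conj (g 3) * τ 3
        + conj (g 4) * τ 4) := by
      rw [hZ, Fin.sum_univ_five]; ring
    have e2 : ‖conj (g 0) * τ 0‖ ≤ ‖Z‖ + (‖conj (g 1) * τ 1‖ + ‖conj (g 2) * τ 2‖ +
        ‖conj (g 3) * τ 3‖ + ‖conj (g 4) * τ 4‖) := by
      rw [e]
      refine (norm_sub_le _ _).trans ?_
      gcongr
      refine (norm_add_le _ _).trans ?_
      gcongr
      refine (norm_add_le _ _).trans ?_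
      gcongr
      exact norm_add_le _ _
    rw [nZ, nZ, nZ, nZ, nZ, n0, n1, ni 2 (by decide), ni 3 (by decide), ni 4 (by decide)] at e2
    linarith
  have hZ0 : ‖Z‖ ≠ 0 := by linarith
  set c : ℂ := (3 / 50 : ℝ) * (conj Z * ((‖Z‖)⁻¹ : ℝ)) with hc
  have cn : ‖c‖ = 3 / 50 := by
    rw [hc, norm_mul, norm_mul, RCLike.norm_conj, Complex.norm_real, Complex.norm_real, norm_inv,
      norm_norm, mul_inv_cancel₀ hZ0]
    norm_num
  have cZ : (Z * c).re = 3 / 50 * ‖Z‖ := by
    have : Z * c = ((3 / 50 * ‖Z‖ : ℝ) : ℂ) := by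
      rw [hc]
      have h1 : Z * conj Z = ((‖Z‖ ^ 2 : ℝ) : ℂ) := by
        rw [Complex.mul_conj']; push_cast; rfl
      have h2 : Z * (((3 / 50 : ℝ) : ℂ) * (conj Z * (((‖Z‖)⁻¹ : ℝ) : ℂ)))
          = ((3 / 50 : ℝ) : ℂ) * ((Z * conj Z) * (((‖Z‖)⁻¹ : ℝ) : ℂ)) := by ring
      rw [h2, h1, ← Complex.ofReal_mul, ← Complex.ofReal_mul]
      congr 1
      field_simp
    rw [this, Complex.ofReal_re]
  set f : Option (Fin 5) → ℂ := fun x => x.elim c g with hf
  have key := lam1_le hσ f
  -- the norm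
  have hN : ∑ x, ‖f x‖ ^ 2 = (3 / 50) ^ 2 + 223 / 192 := by
    rw [Fintype.sum_option, Fin.sum_univ_five]
    simp only [hf, Option.elim]
    rw [cn, n0, n1, ni 2 (by decide), ni 3 (by decide), ni 4 (by decide)]
    norm_num
  -- the energy at the centre
  have hcen : ∀ x : Fin 5, ‖g x - τ x * c‖ ^ 2
      = ‖g x‖ ^ 2 + (3 / 50) ^ 2 - 2 * ((conj (g x) * τ x) * c).re := by
    intro x
    have h1 : ((‖g x - τ x * c‖ ^ 2 : ℝ) : ℂ) = ((‖g x‖ ^ 2 + ‖c‖ ^ 2 : ℝ) : ℂ)
        - ((conj (g x) * τ x) * c + conj ((conj (g x) * τ x) * c)) := by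
      push_cast
      rw [← Complex.conj_mul', ← Complex.conj_mul', ← Complex.conj_mul']
      simp only [map_sub, map_mul, Complex.conj_conj]
      have h5 : conj (τ x) * τ x = 1 := by
        rw [Complex.conj_mul', hτ1]; simp
      linear_combination (conj c * c) * h5
    have h2 := congrArg Complex.re h1
    rw [Complex.ofReal_re, Complex.sub_re, Complex.add_re, Complex.conj_re, Complex.ofReal_re,
      cn] at h2
    rw [h2]; ring
  have hcsum : ∑ x, ‖g x - τ x * c‖ ^ 2 = 223 / 192 + 5 * (3 / 50) ^ 2 - 2 * (3 / 50 * ‖Z‖) := by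
    have h1 : ∑ x, ‖g x - τ x * c‖ ^ 2
        = ∑ x, (‖g x‖ ^ 2 + (3 / 50) ^ 2) - 2 * ∑ x, ((conj (g x) * τ x) * c).re := by
      rw [Finset.mul_sum, ← Finset.sum_sub_distrib]
      exact Finset.sum_congr rfl fun x _ => hcen x
    have h2 : ∑ x, ((conj (g x) * τ x) * c).re = (Z * c).re := by
      rw [hZ, Finset.sum_mul, Complex.re_sum]
    rw [h1, h2, cZ, Fin.sum_univ_five, n0, n1, ni 2 (by decide), ni 3 (by decide),
      ni 4 (by decide)]
    norm_num
  -- the inner edges
  have hin : ∀ x y : Fin 5, (if K.Adj x y then ‖g x - σ (some x) (some y) * g y‖ ^ 2 else 0)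
      ≤ (cst x y : ℝ) := by
    have hsym : ∀ x y : Fin 5, K.Adj x y → ‖g x - σ (some x) (some y) * g y‖
        = ‖g y - σ (some y) (some x) * g x‖ := by
      intro x y h
      exact T_symm hσ ((adjK x y).mpr h) f
    have hA : ‖g 0 - σ (some 0) (some 1) * g 1‖ ^ 2 ≤ 25 / 64 := by
      have : g 0 - σ (some 0) (some 1) * g 1 = ((5 / 8 : ℝ) : ℂ) := by
        rw [g0, g1, ← hs]
        field_simp
        push_cast
        ring
      rw [this, Complex.norm_real]
      norm_num
    have hB : ∀ i : Fin 5, 2 ≤ i → ‖g 1 - σ (some 1) (some i) * g i‖ ^ 2 ≤ 49 / 576 := by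
      intro i hi
      have h0 := ht0 i (adj1 i hi)
      have : g 1 - σ (some 1) (some i) * g i = ((7 / 24 : ℝ) : ℂ) * s⁻¹ := by
        rw [g1, gi i hi]
        field_simp
        push_cast
        ring
      rw [this, norm_mul, norm_inv, hs1, Complex.norm_real]
      norm_num
    have hC : ∀ i j : Fin 5, 2 ≤ i → 2 ≤ j → K.Adj i j →
        ‖g i - σ (some i) (some j) * g j‖ ^ 2 ≤ 1 / 36 := by
      intro i j hi hj hij
      have h1 : ‖g i - σ (some i) (some j) * g j‖ ≤ 1 / 6 := by
        refine (norm_sub_le _ _).trans ?_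
        rw [norm_mul, hσ.norm_one _ _ ((adjK i j).mpr hij), ni i hi, ni j hj]
        norm_num
      nlinarith [norm_nonneg (g i - σ (some i) (some j) * g j)]
    intro x y
    by_cases hxy : K.Adj x y
    · rw [if_pos hxy]
      have hcases : (x = 0 ∧ y = 1) ∨ (x = 1 ∧ y = 0) ∨ (x = 1 ∧ 2 ≤ y) ∨ (y = 1 ∧ 2 ≤ x) ∨
          (2 ≤ x ∧ 2 ≤ y) := by
        revert x y; decide
      rcases hcases with ⟨rfl, rfl⟩ | ⟨rfl, rfl⟩ | ⟨rfl, hy⟩ | ⟨rfl, hx⟩ | ⟨hx, hy⟩
      · have : cst 0 1 = 25 / 64 := by decide +kernel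
        rw [this]; push_cast; exact hA
      · have : cst 1 0 = 25 / 64 := by decide +kernel
        rw [this, hsym _ _ hxy]; push_cast; exact hA
      · have h2 : ∀ y : Fin 5, 2 ≤ y → cst 1 y = 49 / 576 := by decide +kernel
        rw [h2 y hy]; push_cast; exact hB y hy
      · have h2 : ∀ y : Fin 5, 2 ≤ y → cst y 1 = 49 / 576 := by decide +kernel
        rw [h2 x hx, hsym _ _ hxy]; push_cast; exact hB x hx
      · have h2 : ∀ x y : Fin 5, 2 ≤ x → 2 ≤ y → K.Adj x y → cst x y = 1 / 36 := by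
          decide +kernel
        rw [h2 x y hx hy hxy]; push_cast; exact hC x y hx hy hxy
    · rw [if_neg hxy]
      have h2 : ∀ x y : Fin 5, 0 ≤ cst x y := by decide +kernel
      exact_mod_cast h2 x y
  have hinsum : ∑ x, ∑ y, (if K.Adj x y then ‖g x - σ (some x) (some y) * g y‖ ^ 2 else 0)
      ≤ 35 / 24 := by
    have h1 : ((∑ x, ∑ y, cst x y : ℚ) : ℝ) = 35 / 24 := by rw [sum_cst]; norm_num
    rw [← h1]
    push_cast
    exact Finset.sum_le_sum fun x _ => Finset.sum_le_sum fun y _ => hin x y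
  have hen : en (susp K) σ f = 2 * ∑ x, ‖g x - τ x * c‖ ^ 2
      + ∑ x, ∑ y, (if K.Adj x y then ‖g x - σ (some x) (some y) * g y‖ ^ 2 else 0) := by
    rw [en, Fintype.sum_option, Fintype.sum_option]
    simp only [Fintype.sum_option]
    rw [Finset.sum_add_distrib]
    have e1 : (if (susp K).Adj none none then ‖f none - σ none none * f none‖ ^ 2 else 0)
        = (0 : ℝ) := if_neg (fun h => h)
    have e2 : ∀ x : Fin 5, (if (susp K).Adj none (some x) then
        ‖f none - σ none (some x) * f (some x)‖ ^ 2 else 0) = ‖g x - τ x * c‖ ^ 2 := by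
      intro x
      rw [if_pos (adjc x).symm, T_symm hσ (adjc x).symm f]
      rfl
    have e3 : ∀ x : Fin 5, (if (susp K).Adj (some x) none then
        ‖f (some x) - σ (some x) none * f none‖ ^ 2 else 0) = ‖g x - τ x * c‖ ^ 2 := by
      intro x
      rw [if_pos (adjc x)]
      rfl
    rw [e1]
    simp only [e2, e3]
    have e4 : ∀ x y : Fin 5, (if (susp K).Adj (some x) (some y) then
        ‖f (some x) - σ (some x) (some y) * f (some y)‖ ^ 2 else 0)
        = (if K.Adj x y then ‖g x - σ (some x) (some y) * g y‖ ^ 2 else 0) := by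
      intro x y
      by_cases h : K.Adj x y
      · rw [if_pos h, if_pos ((adjK x y).mpr h)]; rfl
      · rw [if_neg h, if_neg (fun h' => h ((adjK x y).mp h'))]
    simp only [e4]
    ring
  rw [hN, hen, hcsum] at key
  nlinarith

/-- **The graph `K₄` with a pendant edge has a suspension whose magneto-spectral height is at most
`1.6`, whereas the height of the graph itself is at least `0.627`.** -/
theorem result : ∃ (V : Type) (_ : Fintype V) (_ : DecidableEq V) (G : SimpleGraph V)
    (_ : DecidableRel G.Adj), Nonempty V ∧ (∀ x, ∃ y, G.Adj x y) ∧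
      nu (susp G) < nu G + 98 / 100 := by
  refine ⟨Fin 5, inferInstance, inferInstance, K, inferInstance, ⟨0⟩, by decide, ?_⟩
  have h1 : nu (susp K) ≤ 8 / 5 := by
    refine csSup_le ⟨_, fun _ _ => 1, ⟨fun _ _ _ => by simp, fun _ _ _ => by simp⟩, rfl⟩ ?_
    rintro t ⟨σ, hσ, rfl⟩
    exact susp_le σ hσ
  have h2 := nu_K
  linarith

end Pool.Agent.Results.MP_efe8c5_co.Suspension
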